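import Pool.Agent.D0H96.Inst

/-! Q1 of MP_cf7fa9_pr (negated form): vertex-transitive graphs of constant degree whose lazy
simple random walks satisfy the product condition but do not exhibit pre-cutoff. -/

namespace Pool.Agent.Results.MP_cf7fa9_pr.NoPreCutoff

open Filter Topology Matrix Pool.Agent.D0H96

section one

variable {N w : ℕ} [NeZero N] [NeZero w] {hN : 4 ≤ N}

theorem stat_eq (x : XX (Lamp A5 N) w) :
    statDist (GR3 A5 N w hN) x = 1 / (Fintype.card (XX (Lamp A5 N) w) : ℝ) := by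
  have h : ∀ y, ((GR3 A5 N w hN).degree y : ℝ) = 539 := fun y => by
    rw [GR3_reg N w hN y]; norm_num
  simp only [statDist, h, Finset.sum_const, Finset.card_univ, nsmul_eq_mul]
  have hc : (0 : ℝ) < Fintype.card (XX (Lamp A5 N) w) := Nat.cast_pos.2 Fintype.card_pos
  field_simp

theorem stat_eq' : statDist (GR3 A5 N w hN)
    = fun _ => 1 / (Fintype.card (XX (Lamp A5 N) w) : ℝ) := funext stat_eq

theorem P_mem : lsrw (GR3 A5 N w hN) ∈ doublyStochastic ℝ (XX (Lamp A5 N) w) :=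
  lsrw_mem (GR3 A5 N w hN) (by norm_num) (GR3_reg N w hN)

variable (h : GoodW N w hN)
include h

theorem osc' (f : XX (Lamp A5 N) w → ℝ) (B : ℝ) (hB : 0 ≤ B) (hf : ∀ x x', |f x - f x'| ≤ B)
    (x x' : XX (Lamp A5 N) w) :
    |((lsrw (GR3 A5 N w hN) ^ (40000 * (N ^ 2 * w ^ 2))) *ᵥ f) x
      - ((lsrw (GR3 A5 N w hN) ^ (40000 * (N ^ 2 * w ^ 2))) *ᵥ f) x'| ≤ B / 2 :=
  h.osc f B hB hf x x'

theorem nonempty_set {ε : ℝ} (hε : 0 < ε) :
    {t : ℕ | dTV (lsrw (GR3 A5 N w hN)) (statDist (GR3 A5 N w hN)) t ≤ ε}.Nonempty := by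
  obtain ⟨k, hk⟩ := exists_pow_lt_of_lt_one hε (by norm_num : (1 / 2 : ℝ) < 1)
  refine ⟨40000 * (N ^ 2 * w ^ 2) * k, ?_⟩
  have h1 := dTV_tendsto P_mem (stat_eq (hN := hN)) (osc' h) k
  refine h1.trans ?_
  rw [_root_.one_div_pow] at hk
  exact hk.le

theorem tmix_le {δ : ℝ} (hδ : 1 / 2 ≤ δ) :
    tmix (lsrw (GR3 A5 N w hN)) (statDist (GR3 A5 N w hN)) δ ≤ 40000 * (N ^ 2 * w ^ 2) := by
  refine Nat.sInf_le ?_
  have h1 := dTV_tendsto P_mem (stat_eq (hN := hN)) (osc' h) 1
  rw [mul_one, pow_one] at h1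
  exact h1.trans hδ

theorem le_tmix {C : ℕ} (hC : C ≤ N) {ε : ℝ} (hε : 0 < ε) (hε' : ε < 1 / 2 * (24 / 25 : ℝ) ^ C) :
    N ^ 2 * w ^ 2 * C ≤ tmix (lsrw (GR3 A5 N w hN)) (statDist (GR3 A5 N w hN)) ε := by
  refine le_csInf (nonempty_set h hε) fun t ht => ?_
  by_contra hcon
  rw [not_le] at hcon
  have h1 := dTV_anti (P_mem (N := N) (w := w) (hN := hN))
    (stat_eq (N := N) (w := w) (hN := hN)) hcon.le
  have h2 := h.low C hC
  rw [← stat_eq' (hN := hN)] at h2
  have h3 : dTV (lsrw (GR3 A5 N w hN)) (statDist (GR3 A5 N w hN)) t ≤ ε := ht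
  linarith

theorem lam2_le : lambda2 (lsrw (GR3 A5 N w hN)) ≤ 1 - 1 / (320000 * (w : ℝ) ^ 2) := by
  have hw : (1 : ℝ) ≤ w := by exact_mod_cast NeZero.one_le (n := w)
  refine Real.sSup_le ?_ ?_
  · rintro lam ⟨h1, h2⟩
    have h3 : lam ∈ spectrum ℝ (Matrix.toLin' (lsrw (GR3 A5 N w hN))) := by
      rw [Matrix.spectrum_toLin']; exact h1
    rw [← Module.End.hasEigenvalue_iff_mem_spectrum] at h3
    obtain ⟨v, hv⟩ := h3.exists_hasEigenvector
    have h4 : lsrw (GR3 A5 N w hN) *ᵥ v = lam • v := by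
      have := hv.apply_eq_smul
      rwa [Matrix.toLin'_apply] at this
    have h5 := h.eig v lam hv.2 h4 h2
    linarith
  · rw [sub_nonneg, div_le_one (by positivity)]
    nlinarith

theorem trel_le : 0 ≤ trel (lsrw (GR3 A5 N w hN)) ∧
    trel (lsrw (GR3 A5 N w hN)) ≤ 320000 * (w : ℝ) ^ 2 := by
  have hw : (0 : ℝ) < w := by exact_mod_cast NeZero.pos w
  have h1 := lam2_le h
  have h2 : 0 < 1 / (320000 * (w : ℝ) ^ 2) := by positivity
  have h3 : 1 / (320000 * (w : ℝ) ^ 2) ≤ 1 - lambda2 (lsrw (GR3 A5 N w hN)) := by linarith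
  refine ⟨?_, ?_⟩
  · unfold trel
    have : 0 ≤ 1 - lambda2 (lsrw (GR3 A5 N w hN)) := h2.le.trans h3
    positivity
  · unfold trel
    have h4 := one_div_le_one_div_of_le h2 h3
    rwa [one_div_one_div] at h4

theorem conn : (GR3 A5 N w hN).Connected := by
  classical
  rw [SimpleGraph.connected_iff]
  refine ⟨fun x0 x1 => ?_, inferInstance⟩
  set f : XX (Lamp A5 N) w → ℝ := fun y => if (GR3 A5 N w hN).Reachable x0 y then 1 else 0 with hf
  have hPf : lsrw (GR3 A5 N w hN) *ᵥ f = f := by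
    funext x
    have h1 : ∀ y, lsrw (GR3 A5 N w hN) x y * f y = lsrw (GR3 A5 N w hN) x y * f x := by
      intro y
      by_cases hxy : x = y
      · rw [hxy]
      by_cases hadj : (GR3 A5 N w hN).Adj x y
      · have h2 : (GR3 A5 N w hN).Reachable x0 y ↔ (GR3 A5 N w hN).Reachable x0 x :=
          ⟨fun h => h.trans hadj.symm.reachable, fun h => h.trans hadj.reachable⟩
        simp only [hf, h2]
      · have h2 : lsrw (GR3 A5 N w hN) x y = 0 := by
          simp only [lsrw]
          rw [if_neg hxy, if_neg hadj, add_zero]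
        rw [h2, zero_mul, zero_mul]
    simp only [Matrix.mulVec, dotProduct, h1]
    rw [← Finset.sum_mul, sum_row_of_mem_doublyStochastic P_mem, one_mul]
  have hPt : ∀ t : ℕ, (lsrw (GR3 A5 N w hN) ^ t) *ᵥ f = f := by
    intro t
    induction t with
    | zero => rw [pow_zero, Matrix.one_mulVec]
    | succ t ih => rw [pow_succ', ← Matrix.mulVec_mulVec, ih, hPf]
  have h3 := osc' h f 1 zero_le_one (fun x x' => by
    simp only [hf]; split_ifs <;> norm_num) x0 x1
  rw [hPt] at h3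
  by_contra hcon
  have h4 : f x0 = 1 := by simp [hf]
  have h5 : f x1 = 0 := by
    simp only [hf]; rw [if_neg hcon]
  rw [h4, h5] at h3
  norm_num at h3

end one

/-- There are a number `d` and a sequence of finite connected simple vertex-transitive graphs, all
regular of degree `d`, whose lazy simple random walks satisfy the product condition but do not
exhibit pre-cutoff. -/
theorem result :
    ∃ (d : ℕ) (V : ℕ → Type) (_ : ∀ n, Fintype (V n)) (_ : ∀ n, DecidableEq (V n))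
      (G : ∀ n, SimpleGraph (V n)) (_ : ∀ n, DecidableRel (G n).Adj),
      (∀ n, (G n).Connected) ∧
      (∀ n, (G n).IsRegularOfDegree d) ∧
      (∀ n, VertexTransitive (G n)) ∧
      ProductCondition V G ∧
      ¬ PreCutoff V G := by
  have hex : ∀ n : ℕ, ∃ g : ℕ, GoodW (n + 16) (4 * (g + 1)) (by omega) :=
    fun n => exists_goodW (n + 16) (by omega)
  choose g hg using hex
  refine ⟨539, fun n => XX (Lamp A5 (n + 16)) (4 * (g n + 1)), fun n => inferInstance,
    fun n => inferInstance, fun n => GR3 A5 (n + 16) (4 * (g n + 1)) (by omega),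
    fun n => inferInstance, fun n => conn (hg n), fun n => GR3_reg _ _ _,
    fun n => GR3_trans _, ?_, ?_⟩
  · -- product condition
    unfold ProductCondition
    rw [Asymptotics.isLittleO_iff]
    intro c hc
    obtain ⟨n0, hn0⟩ := exists_nat_gt (320000 / c)
    filter_upwards [eventually_ge_atTop n0] with n hn
    obtain ⟨h1, h2⟩ := trel_le (hg n)
    have h3 := le_tmix (hg n) (C := 1) (by omega) (ε := 1 / 4) (by norm_num) (by norm_num)
    rw [Real.norm_of_nonneg h1, Real.norm_of_nonneg (Nat.cast_nonneg _)]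
    refine h2.trans ?_
    have h4 : (((n + 16) ^ 2 * (4 * (g n + 1)) ^ 2 * 1 : ℕ) : ℝ) ≤
        (tmix (lsrw (GR3 A5 (n + 16) (4 * (g n + 1)) (by omega)))
          (statDist (GR3 A5 (n + 16) (4 * (g n + 1)) (by omega))) (1 / 4) : ℝ) := by
      exact_mod_cast h3
    refine le_trans ?_ (mul_le_mul_of_nonneg_left h4 hc.le)
    rw [div_lt_iff₀ hc] at hn0
    have h5 : (n0 : ℝ) ≤ n := by exact_mod_cast hn
    have h6 : (320000 : ℝ) ≤ c * ((n : ℝ) + 16) ^ 2 := by
      have : (n : ℝ) ≤ ((n : ℝ) + 16) ^ 2 := by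
        have : (0 : ℝ) ≤ n := Nat.cast_nonneg n
        nlinarith
      nlinarith
    push_cast
    have h7 : (0 : ℝ) ≤ (4 * ((g n : ℝ) + 1)) ^ 2 := by positivity
    nlinarith
  · -- no pre-cutoff
    intro hpc
    unfold PreCutoff at hpc
    set S := ⨆ ε ∈ Set.Ioo (0 : ℝ) (1 / 2), limsup (fun n =>
      (tmix (lsrw (GR3 A5 (n + 16) (4 * (g n + 1)) (by omega)))
        (statDist (GR3 A5 (n + 16) (4 * (g n + 1)) (by omega))) ε : ENNReal)
      / (tmix (lsrw (GR3 A5 (n + 16) (4 * (g n + 1)) (by omega)))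
        (statDist (GR3 A5 (n + 16) (4 * (g n + 1)) (by omega))) (1 - ε) : ENNReal)) atTop with hS
    have key : ∀ C : ℕ, (C : ENNReal) / 40000 ≤ S := by
      intro C
      set ε : ℝ := 1 / 4 * (24 / 25 : ℝ) ^ C with hε
      have hp : (0 : ℝ) < (24 / 25 : ℝ) ^ C := by positivity
      have hp1 : (24 / 25 : ℝ) ^ C ≤ 1 := pow_le_one₀ (by norm_num) (by norm_num)
      have hε0 : 0 < ε := by positivity
      have hε1 : ε < 1 / 2 := by rw [hε]; linarith
      have h1 : (C : ENNReal) / 40000 ≤ limsup (fun n =>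
          (tmix (lsrw (GR3 A5 (n + 16) (4 * (g n + 1)) (by omega)))
            (statDist (GR3 A5 (n + 16) (4 * (g n + 1)) (by omega))) ε : ENNReal)
          / (tmix (lsrw (GR3 A5 (n + 16) (4 * (g n + 1)) (by omega)))
            (statDist (GR3 A5 (n + 16) (4 * (g n + 1)) (by omega))) (1 - ε) : ENNReal)) atTop := by
        refine le_trans (le_liminf_of_le (by isBoundedDefault) ?_) liminf_le_limsup
        filter_upwards [eventually_ge_atTop C] with n hn
        have h2 := le_tmix (hg n) (C := C) (by omega) hε0 (by rw [hε]; linarith)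
        have h3 := tmix_le (hg n) (δ := 1 - ε) (by linarith)
        have hK : (((n + 16) ^ 2 * (4 * (g n + 1)) ^ 2 : ℕ) : ENNReal) ≠ 0 := by
          rw [Nat.cast_ne_zero]; positivity
        have hK' : (((n + 16) ^ 2 * (4 * (g n + 1)) ^ 2 : ℕ) : ENNReal) ≠ ⊤ :=
          ENNReal.natCast_ne_top _
        have h4 : (C : ENNReal) / 40000
            = (((n + 16) ^ 2 * (4 * (g n + 1)) ^ 2 * C : ℕ) : ENNReal)
              / ((40000 * ((n + 16) ^ 2 * (4 * (g n + 1)) ^ 2) : ℕ) : ENNReal) := by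
          rw [mul_comm ((n + 16) ^ 2 * (4 * (g n + 1)) ^ 2) C, Nat.cast_mul C, Nat.cast_mul 40000,
            ENNReal.mul_div_mul_right _ _ hK hK']
          norm_num
        rw [h4]
        exact ENNReal.div_le_div (by exact_mod_cast h2) (by exact_mod_cast h3)
      refine h1.trans ?_
      rw [hS]
      exact le_iSup₂_of_le ε ⟨hε0, hε1⟩ le_rfl
    have hne : S * 40000 ≠ ⊤ := ENNReal.mul_ne_top hpc.ne (by norm_num)
    obtain ⟨C, hC⟩ := ENNReal.exists_nat_gt hne
    have h1 := key C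
    have h2 : (C : ENNReal) ≤ S * 40000 := by
      rw [ENNReal.div_le_iff (by norm_num) (by norm_num)] at h1
      exact h1
    exact absurd hC (not_lt.2 h2)

end Pool.Agent.Results.MP_cf7fa9_pr.NoPreCutoff
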